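import Pool.Agent.Helper85.TY.GSmall

/-!
MP_8ee768_co, project TH-Y': the closure of the rows `m = 0, 2, 4` of the glued types, in the form
of the generated modules, and the completeness of these rows.
-/

set_option autoImplicit false
set_option maxRecDepth 100000

namespace Pool.Agent.Helper85.TY

open Finset
open Pool.Agent.Helper89.CV (OddCover ofMask)
open Pool.Agent.Helper97.CV
open Pool.Agent.Helper79.CV
open Pool.Agent.Helper82.TY (below pop)
open Pool.Agent.Helper16.TY (code Good zs packL code_mod)
open Pool.Agent.Helper67.TY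
open Pool.Agent.Helper67.GT (NT gG gN lane)
open Pool.Agent.Helper47.GM (gmN gmP gmPiece laneM lanesM)
open Pool.Agent.Helper54.TY (GlueN)

/-- the rows `m` of the types `lo, .., hi - 1` are closed -/
def ClM (m lo hi : ℕ) : Prop :=
  ∀ t, lo ≤ t → t < hi → ClAt (gG t <<< 210) (gmN m t) (laneM m t)

theorem ClM.app {m a b c : ℕ} (h : ClM m a b) (h' : ClM m b c) : ClM m a c := by
  intro j h1 h2
  by_cases h3 : j < b
  · exact h j h1 h3
  · exact h' j (by omega) h2

/-- the first record of the list is used -/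
def clHit (chk : IRec → Bool) (go : List IRec → Bool) (l : List IRec) : Bool :=
  List.rec (motive := fun _ => Bool) false
    (fun a l' _ => Bool.rec (motive := fun _ => Bool) false (go l') (chk a)) l

theorem clHit_sound {chk : IRec → Bool} {go : List IRec → Bool} {l : List IRec}
    (h : clHit chk go l = true) : ∃ a l', chk a = true ∧ go l' = true := by
  cases l with
  | nil => exact absurd h Bool.false_ne_true
  | cons a l' =>
    have e : Bool.rec (motive := fun _ => Bool) false (go l') (chk a) = true := h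
    cases h4 : chk a
    · rw [h4] at e
      exact absurd e Bool.false_ne_true
    · rw [h4] at e
      exact ⟨a, l', h4, e⟩

/-- the checks of `t, t + 1, .., t + n - 1`; only the `t` with `N t ≠ 0` have a record -/
def clG (N : ℕ → ℕ) (chk : ℕ → IRec → Bool) (n : ℕ) : ℕ → List IRec → Bool :=
  Nat.rec (motive := fun _ => ℕ → List IRec → Bool) (fun _ _ => true)
    (fun _ ih t l => Bool.rec (motive := fun _ => Bool)
      (clHit (chk t) (fun l' => forceB (Nat.succ t) fun t' => ih t' l') l)
      (forceB (Nat.succ t) fun t' => ih t' l) (Nat.beq (N t) 0)) n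

theorem clG_sound {N : ℕ → ℕ} {chk : ℕ → IRec → Bool} {Q : ℕ → Prop}
    (hQ : ∀ t a, chk t a = true → Q t) (h0 : ∀ t, N t = 0 → Q t) : ∀ (n t : ℕ) (l : List IRec),
    clG N chk n t l = true → ∀ j, t ≤ j → j < t + n → Q j := by
  intro n
  induction n with
  | zero => intro t l _ j h1 h2; omega
  | succ n ih =>
    intro t l h
    have e : Bool.rec (motive := fun _ => Bool)
      (clHit (chk t) (fun l' => forceB (Nat.succ t) fun t' => clG N chk n t' l') l)
      (forceB (Nat.succ t) fun t' => clG N chk n t' l) (Nat.beq (N t) 0) = true := h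
    have hs : (∃ l', clG N chk n (t + 1) l' = true) ∧ Q t := by
      cases h3 : Nat.beq (N t) 0
      · rw [h3] at e
        obtain ⟨a, l', h4, h5⟩ := clHit_sound e
        rw [forceB_eq] at h5
        exact ⟨⟨l', h5⟩, hQ t a h4⟩
      · rw [h3] at e
        have e' : forceB (Nat.succ t) (fun t' => clG N chk n t' l) = true := e
        rw [forceB_eq] at e'
        rw [Nat.beq_eq] at h3
        exact ⟨⟨l, e'⟩, h0 t h3⟩
    obtain ⟨⟨l', h1⟩, h2⟩ := hs
    have h3 := ih (t + 1) l' h1
    intro j h4 h5
    by_cases h6 : j = t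
    · subst h6
      exact h2
    · exact h3 j (by omega) (by omega)

/-- a lane, the index of the piece is evaluated first -/
noncomputable def laneMF (m t k : ℕ) : ℕ :=
  forceN (Nat.add (gmP m t) (Nat.div k 64)) fun i =>
    Nat.mod (Nat.shiftRight (gmPiece m i) (Nat.mul 210 (Nat.mod k 64))) (2 ^ 210)

theorem laneMF_eq (m : ℕ) : laneMF m = laneM m := by
  funext t k
  unfold laneMF
  rw [forceN_eq]
  rfl

/-- the checks of the rows `m` -/
noncomputable def clRun (m n : ℕ) : ℕ → List IRec → Bool :=
  clG (gmN m) (fun t a => isoChk gG (gmN m) (laneMF m) t a.1 a.2.1 a.2.2) n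

theorem clAt_zero {X N : ℕ} {lt : ℕ → ℕ} (h : N = 0) : ClAt X N lt := by
  intro ρ _ _ k hk
  omega

theorem clRun_sound {m : ℕ} (n t : ℕ) (l : List IRec) (h : clRun m n t l = true) :
    ClM m t (t + n) :=
  clG_sound (Q := fun t => ClAt (gG t <<< 210) (gmN m t) (laneM m t))
    (fun t _ h => by
      rw [laneMF_eq] at h
      exact clAt_of_isoAt (isoChk_sound (gG_lt t) (fun k _ => laneM_lt m t k) h))
    (fun _ h => clAt_zero h) n t l h

theorem clM {m lo n : ℕ} {l : List IRec} (h : clRun m n lo l = true) : ClM m lo (lo + n) :=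
  clRun_sound n lo l h

/-! ## the completeness of the rows -/

/-- **the row `m` is complete** -/
theorem glueSmall_of {m : ℕ} (hm : m ≤ 5) {nc : ℕ} {reps : List ℕ}
    (hreps : reps = repsOf nc Pool.Agent.Helper16.TY.Tab.tv)
    (hR : RootOK 6 (fun _ => True) reps)
    (htv : ∀ j < nc, Good 6 (Pool.Agent.Helper16.TY.Tab.tv j))
    (hF : FlagM m 0 nc) (hI : IsoSeg 0 NT) (hK : KeyInc NT gG) (hC : ClM m 0 NT) :
    ∀ n, 2 * n = 114 + m → ∀ t < NT, GlueN n (gG t) (lanesM m t) := by
  intro n hn t ht
  have hIso : ∀ t < NT, IsoAt (gG t <<< 210) (gmN m t) (laneM m t) := fun t ht =>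
    isoAt_of_clAt (hI t (Nat.zero_le _) ht) (hC t (Nat.zero_le _) ht)
  have h1 := gFlagOK_of_checks (P := pc m) htv (fun j hj => hF j (Nat.zero_le _) hj)
  have h2 := gIsoOK_of_checks (fun t _ => gG_lt t) hK hIso
  have h3 := gCardOK_of_checks (NT := NT) hIso
  rw [← hreps] at h1
  have h4 := gluedOK_of_flags (P := pc m) (fun n hn => by
    rw [pc_iff] at hn
    omega) hR h1 h2 h3
  intro D hD hcard hG
  exact h4 t ht D hD (by rw [pc_iff, hcard]; exact hn) hG

end Pool.Agent.Helper85.TY
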