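import Pool.Agent.Helper67.TY.GluedFinal
import Pool.Agent.Gen.TY.GFS.All
import Pool.Agent.Helper47.TY.DInst

/-!
MP_8ee768_co, project TH-Y': the rows `m = 0, 2, 4, 6` of the glued types are complete (`GlueD`),
from the class theorem.
-/

set_option autoImplicit false

namespace Pool.Agent.Helper85.TY

open Pool.Agent.Helper67.TY
open Pool.Agent.Helper79.CV
open Pool.Agent.Helper47.GM (lanesM lanesM_six)
open Pool.Agent.Helper47.TY (GlueD)

/-- **all rows of the glued types are complete** -/
theorem glueD (hR : RootOK 6 (fun _ => True) Pool.Agent.Helper16.TY.reps) : GlueD := by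
  intro m hm he n hn t ht
  by_cases h6 : m = 6
  · subst h6
    intro D hD hcard hG
    have h1 := gluedOK hR t ht D hD (by omega) hG
    rw [← lanesM_six] at h1
    exact h1
  · have h5 : m ≤ 5 := by omega
    exact Pool.Agent.Gen.TY.GFS.glueSmall hR Pool.Agent.Gen.TY.GI.all
      (keyInc_of_seg Pool.Agent.Gen.TY.GI.keys) m h5 he n hn t ht

end Pool.Agent.Helper85.TY
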