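import Pool.Agent.Helper67.TY.GIRun
import Pool.Agent.Helper47.GM.Rows
import Pool.Agent.Helper54.TY.Glue

/-!
MP_8ee768_co, project TH-Y': the rows `m = 0, 2, 4` of the glued types (classes with `57 + m / 2`
blocks): flags of the zero pairs and closure under the isomorphisms, after helper67's `GRun` and
`GIRun` (the case of 60 blocks).
-/

set_option autoImplicit false
set_option maxRecDepth 100000

namespace Pool.Agent.Helper85.TY

open Finset
open Pool.Agent.Helper89.CV (OddCover ofMask)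
open Pool.Agent.Helper97.CV
open Pool.Agent.Helper79.CV
open Pool.Agent.Helper82.TY (below pop)
open Pool.Agent.Helper16.TY (code Good zs packL code_mod)
open Pool.Agent.Helper67.TY
open Pool.Agent.Helper67.GT (NT gG gN lane)
open Pool.Agent.Helper47.GM (gmN gmP gmPiece laneM lanesM)
open Pool.Agent.Helper54.TY (GlueN)

/-- the number of blocks of the row `m` -/
def pc (m n : ℕ) : Bool := Nat.beq (Nat.mul 2 n) (Nat.add 114 m)

theorem pc_iff {m n : ℕ} : pc m n = true ↔ 2 * n = 114 + m := by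
  unfold pc
  rw [Nat.beq_eq]
  rfl

theorem laneM_lt (m t k : ℕ) : laneM m t k < 2 ^ 210 := Nat.mod_lt _ (Nat.two_pow_pos _)

/-- the end lane of a certificate `v = word + 2 ^ 66 * (k + 2 ^ 13 * t)` -/
noncomputable def endm (m v : ℕ) : ℕ :=
  forceN (Nat.shiftRight v 79) fun t => forceN (Nat.mod (Nat.shiftRight v 66) 8192) fun k =>
    Bool.rec 0 (Nat.add (Nat.shiftLeft 3072 495) (Nat.add (Nat.shiftLeft (gG t) 210) (laneM m t k)))
      (and (Nat.blt t NT) (Nat.blt k (gmN m t)))

theorem endmOK (m : ℕ) : EndOK NT gG (gmN m) (laneM m) (endm m) := by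
  intro v hv
  unfold endm at hv ⊢
  simp only [forceN_eq] at hv ⊢
  cases h : (and (Nat.blt (Nat.shiftRight v 79) NT) (Nat.blt (Nat.mod (Nat.shiftRight v 66) 8192)
    (gmN m (Nat.shiftRight v 79))))
  · rw [h] at hv
    exact absurd rfl hv
  · rw [Bool.and_eq_true, Nat.blt_eq, Nat.blt_eq] at h
    exact ⟨Nat.shiftRight v 79, h.1, Nat.mod (Nat.shiftRight v 66) 8192, h.2, rfl⟩

/-- the flags of the row `m` of the classes `lo, .., hi - 1` -/
def FlagM (m lo hi : ℕ) : Prop :=
  ∀ j, lo ≤ j → j < hi → FlagAt (pc m) NT gG (gmN m) (laneM m) (Pool.Agent.Helper16.TY.Tab.tv j)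

theorem FlagM.app {m a b c : ℕ} (h : FlagM m a b) (h' : FlagM m b c) : FlagM m a c := by
  intro j h1 h2
  by_cases h3 : j < b
  · exact h j h1 h3
  · exact h' j (by omega) h2

/-- the check of the flags of the classes `lo, .., lo + n - 1` (`N` pairs) -/
noncomputable def fchkM (m lo n N : ℕ) (l : List ℕ) : Bool :=
  flagsChk (pc m) Pool.Agent.Helper16.TY.Tab.tv (endm m) lo n N (cert N l)

theorem flagM {m lo n N : ℕ} {l : List ℕ} (h : fchkM m lo n N l = true) : FlagM m lo (lo + n) :=
  fun j h1 h2 => flagsChk_sound (fun t _ => gG_lt t) (fun t _ k _ => laneM_lt m t k) (endmOK m)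
    h j h1 h2

/-! ## the classes with 60 blocks -/

/-- all classes `lo, .., lo + n - 1` have 60 blocks -/
noncomputable def rangeCard (n : ℕ) : ℕ → Bool :=
  Nat.rec (motive := fun _ => ℕ → Bool) (fun _ => true)
    (fun _ ih j => Bool.rec (motive := fun _ => Bool) false (forceB (Nat.succ j) ih)
      (Nat.beq (pop (Nat.mod (Pool.Agent.Helper16.TY.Tab.tv j) (2 ^ 495))) 60)) n

theorem rangeCard_sound : ∀ (n lo : ℕ), rangeCard n lo = true →
    ∀ j, lo ≤ j → j < lo + n → pop (Pool.Agent.Helper16.TY.Tab.tv j % 2 ^ 495) = 60 := by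
  intro n
  induction n with
  | zero => intro lo _ j h1 h2; omega
  | succ n ih =>
    intro lo h j h1 h2
    have e : Bool.rec (motive := fun _ => Bool) false (forceB (Nat.succ lo) (rangeCard n))
      (Nat.beq (pop (Nat.mod (Pool.Agent.Helper16.TY.Tab.tv lo) (2 ^ 495))) 60) = true := h
    cases h3 : Nat.beq (pop (Nat.mod (Pool.Agent.Helper16.TY.Tab.tv lo) (2 ^ 495))) 60
    · rw [h3] at e
      exact absurd e Bool.false_ne_true
    · rw [h3] at e
      have e' : forceB (Nat.succ lo) (rangeCard n) = true := e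
      rw [forceB_eq] at e'
      by_cases h4 : j = lo
      · subst h4
        rw [Nat.beq_eq] at h3
        exact h3
      · exact ih _ e' j (by omega) (by omega)

/-- the classes `lo, .., hi - 1` have 60 blocks -/
def Card60 (lo hi : ℕ) : Prop :=
  ∀ j, lo ≤ j → j < hi → pop (Pool.Agent.Helper16.TY.Tab.tv j % 2 ^ 495) = 60

theorem Card60.app {a b c : ℕ} (h : Card60 a b) (h' : Card60 b c) : Card60 a c := by
  intro j h1 h2
  by_cases h3 : j < b
  · exact h j h1 h3
  · exact h' j (by omega) h2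

theorem card60 {lo n : ℕ} (h : rangeCard n lo = true) : Card60 lo (lo + n) :=
  rangeCard_sound n lo h

/-- no statement for a class with 60 blocks -/
theorem flagM_of_card {m lo hi : ℕ} (hm : m ≤ 5) (h : Card60 lo hi) : FlagM m lo hi := by
  intro j h1 h2 D hsub hcard hx
  exfalso
  have h3 := h j h1 h2
  rw [hx, code_mod, ← Pool.Agent.Helper82.TY.card_eq_pop (by norm_num) hsub] at h3
  rw [pc_iff, h3] at hcard
  omega

/-! ## the closure of the small rows -/

/-- the row `N`, `lt` is closed under the automorphisms of the type -/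
def ClAt (X N : ℕ) (lt : ℕ → ℕ) : Prop :=
  ∀ ρ : Equiv.Perm (Fin 13), Fix2 ρ → enc 12 4 (mapF ρ (fam 12 4 X)) = X →
    ∀ k < N, ∃ k' < N, enc 10 4 (mapF ρ (fam 10 4 (lt k))) = lt k'

theorem clAt_of_isoAt {X N : ℕ} {lt : ℕ → ℕ} (h : IsoAt X N lt) : ClAt X N lt := by
  intro ρ hρ he
  refine (h.img ρ hρ ?_).2 he
  obtain ⟨j, hj, h1⟩ := h.can
  exact ⟨j, hj, by rw [he]; exact h1⟩

theorem isoAt_of_clAt {X N N' : ℕ} {lt lt' : ℕ → ℕ} (h : IsoAt X N' lt') (h' : ClAt X N lt) :
    IsoAt X N lt :=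
  ⟨h.can, h.card11, h.card10, fun ρ hρ hj => ⟨(h.img ρ hρ hj).1, fun he => h' ρ hρ he⟩⟩

/-- record of a small row: type, row, record -/
abbrev SRec : Type := ℕ × ℕ × List (List ℕ) × List (List ℕ)

end Pool.Agent.Helper85.TY
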